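import Pool.Agent.H73.NK.Targets

/-!
# Counting the solutions with different cofactors
-/

set_option autoImplicit false

namespace Pool.Agent.H50.NK

open Pool.Agent.H73.NK

/-- a multiset of positive integers with product `1` has sum equal to its cardinality -/
theorem sum_of_prod_one (s : Multiset ℕ) (h : s.prod = 1) : s.sum = Multiset.card s := by
  have h1 : ∀ a ∈ s, a = 1 := by
    intro a ha
    have := Multiset.dvd_prod ha
    rw [h] at this
    exact Nat.dvd_one.mp this
  rw [Multiset.eq_replicate_of_mem h1]
  simp

/-- the elements of a sum = product multiset are bounded -/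
theorem le_of_mem {k : ℕ} (hk : 2 ≤ k) {M : Multiset ℕ} (hM : M ∈ SPM k) :
    ∀ b ∈ M, b ≤ k * k := by
  obtain ⟨hc, hpos, he⟩ := hM
  have hne : M.toFinset.Nonempty := by
    rw [Multiset.toFinset_nonempty]
    rintro rfl
    simp at hc
    omega
  obtain ⟨a, ha, hmax⟩ := Finset.exists_max_image M.toFinset id hne
  rw [Multiset.mem_toFinset] at ha
  have hmax' : ∀ b ∈ M, b ≤ a := fun b hb => hmax b (Multiset.mem_toFinset.mpr hb)
  have hapos := hpos a ha
  have hM' : a ::ₘ M.erase a = M := Multiset.cons_erase ha
  set M' := M.erase a with hM'def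
  have hmem' : ∀ b ∈ M', b ∈ M := fun b hb => Multiset.mem_of_mem_erase hb
  have hcard : Multiset.card M' + 1 = k := by
    rw [← hc, ← hM', Multiset.card_cons]
  have hprod : M.prod = a * M'.prod := by rw [← hM', Multiset.prod_cons]
  have hsum : M.sum = a + M'.sum := by rw [← hM', Multiset.sum_cons]
  have hPpos : 0 < M'.prod := by
    apply Nat.pos_of_ne_zero
    intro h0
    rw [Multiset.prod_eq_zero_iff] at h0
    exact absurd (hpos 0 (hmem' 0 h0)) (lt_irrefl _)
  have hS1 : M'.sum ≤ Multiset.card M' * a := by
    have := Multiset.sum_le_card_nsmul M' a (fun b hb => hmax' b (hmem' b hb))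
    simpa using this
  have hP1 : M'.prod ≠ 1 := by
    intro h1
    have := sum_of_prod_one M' h1
    rw [hprod, hsum, h1, this] at he
    omega
  have hPk : M'.prod ≤ k := by
    have h1 : a * M'.prod ≤ a * k := by
      rw [← hprod, he, hsum, ← hcard]
      nlinarith
    exact Nat.le_of_mul_le_mul_left h1 hapos
  have hb : ∀ b ∈ M', b ≤ k := fun b hb =>
    (Nat.le_of_dvd hPpos (Multiset.dvd_prod hb)).trans hPk
  have hS2 : M'.sum ≤ Multiset.card M' * k := by
    have := Multiset.sum_le_card_nsmul M' k hb
    simpa using this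
  have hak : a ≤ k * k := by
    have h2 : 2 ≤ M'.prod := by omega
    have h3 : a * 2 ≤ a * M'.prod := Nat.mul_le_mul_left a h2
    have h4 : a * M'.prod = a + M'.sum := by rw [← hprod, he, hsum]
    have h5 : Multiset.card M' * k ≤ k * k := Nat.mul_le_mul_right k (by omega)
    omega
  exact fun b hb => (hmax' b hb).trans hak

/-- there are finitely many sum = product multisets of size `k` -/
theorem spm_finite {k : ℕ} (hk : 2 ≤ k) : (SPM k).Finite := by
  classical
  apply Set.Finite.subset
    ((k • (Multiset.range (k * k + 1))).powerset.toFinset.finite_toSet)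
  intro M hM
  have hle := le_of_mem hk hM
  rw [Finset.mem_coe, Multiset.mem_toFinset, Multiset.mem_powerset, Multiset.le_iff_count]
  intro b
  rw [Multiset.count_nsmul]
  by_cases hb : b ∈ M
  · have h1 : Multiset.count b (Multiset.range (k * k + 1)) = 1 := by
      apply Multiset.count_eq_one_of_mem (Multiset.nodup_range _)
      rw [Multiset.mem_range]
      have := hle b hb
      omega
    rw [h1, mul_one, ← hM.1]
    exact Multiset.count_le_card b M
  · rw [Multiset.count_eq_zero_of_notMem hb]
    exact Nat.zero_le _

/-- the elements different from the distinguished one are small -/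
theorem small_of_mem {M : Multiset ℕ} {c q : ℕ} (hc : c ∈ M)
    (hp : M.prod = c * (q + 1)) (hq : q + 1 < c) : ∀ b ∈ M, b = c ∨ b ≤ q + 1 := by
  intro b hb
  by_cases hbc : b = c
  · exact Or.inl hbc
  right
  have h1 : c * (M.erase c).prod = M.prod := Multiset.prod_erase hc
  have h2 : (M.erase c).prod = q + 1 := by
    rw [hp] at h1
    exact Nat.eq_of_mul_eq_mul_left (by omega) h1
  have h3 : b ∈ M.erase c := (Multiset.mem_erase_of_ne hbc).mpr hb
  have h4 := Multiset.dvd_prod h3
  rw [h2] at h4
  exact Nat.le_of_dvd (by omega) h4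

/-- counting solutions -/
theorem pf_cn : T_CN := by
  intro k A hk hA
  choose! F hF using hA
  have hinj : Set.InjOn F (A : Set ℕ) := by
    intro q hq q' hq' he
    obtain ⟨_, c, hc, hp, hlt⟩ := hF q hq
    obtain ⟨_, c', hc', hp', hlt'⟩ := hF q' hq'
    have he' : F q = F q' := he
    have h1 := small_of_mem hc hp hlt c' (by rw [he']; exact hc')
    have h2 := small_of_mem hc' hp' hlt' c (by rw [← he']; exact hc)
    have hcc : c = c' := by
      rcases h1 with h1 | h1
      · exact h1.symm
      · rcases h2 with h2 | h2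
        · exact h2
        · omega
    subst hcc
    rw [he'] at hp
    have h3 : c * (q + 1) = c * (q' + 1) := by rw [← hp, hp']
    have h4 := Nat.eq_of_mul_eq_mul_left (by omega : 0 < c) h3
    omega
  have hsub : F '' (A : Set ℕ) ⊆ SPM k := by
    rintro _ ⟨q, hq, rfl⟩
    exact (hF q hq).1
  have h1 := Set.ncard_le_ncard hsub (spm_finite hk)
  rw [hinj.ncard_image, Set.ncard_coe_finset] at h1
  exact h1

end Pool.Agent.H50.NK
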